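import Mathlib
import Pool.Agent.H.MP_81f2fa_al.A

namespace Pool.Agent.Results.MP_9614a6_lc.Quartic

/-- `f` is a trace polynomial of the word `w`. -/
def IsTracePoly (w : FreeGroup (Fin 2)) (f : MvPolynomial (Fin 3) ℤ) : Prop :=
  ∀ A B : Matrix.SpecialLinearGroup (Fin 2) ℂ, Matrix.trace (FreeGroup.lift ![A, B] w).1 =
    MvPolynomial.aeval ![Matrix.trace A.1, Matrix.trace B.1, Matrix.trace (A * B).1] f

/-- Total binary length of the nonzero coefficients. -/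
noncomputable def bitSize (f : MvPolynomial (Fin 3) ℤ) : ℕ :=
  ∑ d ∈ f.support, Nat.size (MvPolynomial.coeff d f).natAbs

theorem result : ∃ c : ℝ, 0 < c ∧ ∃ n₀ : ℕ, ∀ n ≥ n₀, ∃ L : List (Fin 2 × Bool),
    FreeGroup.IsCyclicallyReduced L ∧ L.length = n ∧
      ∃ f : MvPolynomial (Fin 3) ℤ, IsTracePoly (FreeGroup.mk L) f ∧
        (∀ g, IsTracePoly (FreeGroup.mk L) g → g = f) ∧ c * (n : ℝ) ^ 4 ≤ bitSize f := by
  refine ⟨1 / 40 ^ 4, by positivity, 8, fun n hn => ?_⟩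
  obtain ⟨L, h1, h2, f, hf, l, hl, T, hT, hc⟩ := H.MP_81f2fa_al.main n hn
  refine ⟨L, h1, h2, f, hf, fun g hg => H.MP_81f2fa_al.uniq hf hg, ?_⟩
  have h3 : T ⊆ f.support := fun d hd => MvPolynomial.mem_support_iff.2 fun h0 => by
    have := hc d hd
    rw [h0] at this
    exact absurd this (by simp)
  have h6 : T.card * (l + 1) ≤ bitSize f :=
    calc T.card * (l + 1) = ∑ d ∈ T, (l + 1) := by simp
      _ ≤ ∑ d ∈ T, Nat.size (MvPolynomial.coeff d f).natAbs :=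
        Finset.sum_le_sum fun d hd => Nat.lt_size.2 (hc d hd)
      _ ≤ _ := Finset.sum_le_sum_of_subset h3
  have h4 : n ^ 4 ≤ 40 ^ 4 * bitSize f :=
    calc n ^ 4 ≤ (40 * (l + 1)) ^ 4 := Nat.pow_le_pow_left hl 4
      _ = 40 ^ 4 * (T.card * (l + 1)) := by rw [hT]; ring
      _ ≤ _ := Nat.mul_le_mul_left _ h6
  have h5 : (n : ℝ) ^ 4 ≤ 40 ^ 4 * bitSize f := by exact_mod_cast h4
  linarith

end Pool.Agent.Results.MP_9614a6_lc.Quartic
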